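import Pool.Agent.Q176.FA.W4a

set_option autoImplicit false

namespace Pool.Agent.Q176.FA.W4

open MeasureTheory Filter Topology Set
open Pool.Agent.Q120.FA
open Pool.Agent.Q176.FA.W5

lemma g_II {a b : ℝ} (ha : 1 ≤ a) (hab : a ≤ b) : IntervalIntegrable g volume a b := by
  obtain ⟨K, hK⟩ := exists_nat_ge b
  have h1 : IntervalIntegrable g volume ((1 : ℕ) : ℝ) ((K + 1 : ℕ) : ℝ) := by
    apply IntervalIntegrable.trans_iterate_Ico (a := fun k : ℕ => (k : ℝ)) (by omega)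
    intro k hk
    have := g_int (n := k) hk.1
    exact_mod_cast this
  refine h1.mono_set ?_
  have hK0 : (0 : ℝ) ≤ K := Nat.cast_nonneg K
  rw [uIcc_of_le hab, uIcc_of_le (by push_cast; linarith)]
  intro x hx
  exact ⟨by push_cast; linarith [hx.1], by push_cast; linarith [hx.2]⟩

lemma H2_sub {a b : ℝ} (ha : 1 ≤ a) (hab : a ≤ b) : H2 b - H2 a = ∫ u in a..b, g u := by
  have h : (∫ u in (1 : ℝ)..b, g u) - ∫ u in (1 : ℝ)..a, g u = ∫ u in a..b, g u :=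
    intervalIntegral.integral_interval_sub_left (g_II le_rfl (ha.trans hab)) (g_II le_rfl ha)
  exact h

lemma H2_mono {a b : ℝ} (ha : 1 ≤ a) (hab : a ≤ b) : H2 a ≤ H2 b := by
  have h := H2_sub ha hab
  have h2 : 0 ≤ ∫ u in a..b, g u :=
    intervalIntegral.integral_nonneg hab fun u _ => sq_nonneg _
  linarith

lemma inv_sq {a b : ℝ} (ha : 0 < a) (hab : a ≤ b) :
    IntervalIntegrable (fun u : ℝ => 1 / u ^ 2) volume a b ∧ ∫ u in a..b, 1 / u ^ 2 = 1 / a - 1 / b := by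
  have hI : IntervalIntegrable (fun u : ℝ => 1 / u ^ 2) volume a b := by
    apply ContinuousOn.intervalIntegrable
    rw [uIcc_of_le hab]
    refine ContinuousOn.div continuousOn_const (continuousOn_id.pow 2) ?_
    intro x hx
    have : 0 < x := lt_of_lt_of_le ha hx.1
    positivity
  refine ⟨hI, ?_⟩
  rw [intervalIntegral.integral_eq_sub_of_hasDerivAt (f := fun u : ℝ => -(u⁻¹)) ?_ hI]
  · rw [one_div, one_div]
    ring
  · intro x hx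
    rw [uIcc_of_le hab] at hx
    have hx0 : 0 < x := lt_of_lt_of_le ha hx.1
    have h := (hasDerivAt_inv hx0.ne').neg
    rw [neg_neg, ← one_div] at h
    exact h

lemma alg {x y o η : ℝ} (hη : 0 < η) (h : |x - y| ≤ o) :
    y ^ 2 ≤ (1 + η) * x ^ 2 + (1 + 1 / η) * o ^ 2 := by
  have h1 : (x - y) ^ 2 ≤ o ^ 2 := by
    have := abs_le.1 h
    exact sq_le_sq' this.1 this.2
  have h2 : 2 * x * (y - x) ≤ η * x ^ 2 + 1 / η * (y - x) ^ 2 := by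
    have h3 : 0 ≤ (η * x - (y - x)) ^ 2 / η := by positivity
    have h4 : (η * x - (y - x)) ^ 2 / η = η * x ^ 2 + 1 / η * (y - x) ^ 2 - 2 * x * (y - x) := by
      field_simp
      ring
    linarith
  have h5 : y ^ 2 = x ^ 2 + 2 * x * (y - x) + (y - x) ^ 2 := by ring
  have h6 : (1 + 1 / η) * (y - x) ^ 2 ≤ (1 + 1 / η) * o ^ 2 := by
    refine mul_le_mul_of_nonneg_left ?_ (by positivity)
    have : (y - x) ^ 2 = (x - y) ^ 2 := by ring
    rw [this]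
    exact h1
  nlinarith

/-- the end points `N / (k P)` -/
noncomputable def xx (N P k : ℕ) : ℝ := (N : ℝ) / ((k * P : ℕ) : ℝ)

lemma xx_facts {N P i : ℕ} (hP : 1 ≤ P) (hi : 1 ≤ i) (hN : (i + 1) * P ≤ N) :
    1 ≤ xx N P (i + 1) ∧ xx N P (i + 1) ≤ xx N P i ∧ xx N P (i + 1) ≤ N ∧
    xx N P i - xx N P (i + 1) = xx N P (i + 1) / i ∧
    1 / xx N P (i + 1) - 1 / xx N P i = P / N := by
  have hP0 : (0 : ℝ) < P := by exact_mod_cast hP
  have hi0 : (0 : ℝ) < i := by exact_mod_cast hi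
  have hA : 0 < i * P := Nat.mul_pos hi hP
  have hB : 0 < (i + 1) * P := Nat.mul_pos (by omega) hP
  have hA' : (0 : ℝ) < ((i * P : ℕ) : ℝ) := by exact_mod_cast hA
  have hB' : (0 : ℝ) < (((i + 1) * P : ℕ) : ℝ) := by exact_mod_cast hB
  have hN' : (((i + 1) * P : ℕ) : ℝ) ≤ N := by exact_mod_cast hN
  have hN0 : (0 : ℝ) < N := lt_of_lt_of_le hB' hN'
  have h1B : (1 : ℝ) ≤ (((i + 1) * P : ℕ) : ℝ) := by exact_mod_cast hB
  unfold xx
  refine ⟨?_, ?_, ?_, ?_, ?_⟩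
  · rw [le_div_iff₀ hB', one_mul]
    exact hN'
  · refine div_le_div_of_nonneg_left hN0.le hA' ?_
    have : i * P ≤ (i + 1) * P := Nat.mul_le_mul_right _ (by omega)
    exact_mod_cast this
  · exact div_le_self hN0.le h1B
  · push_cast
    field_simp
    ring
  · push_cast
    field_simp
    ring

lemma near {N P i : ℕ} {θ : ℝ} (hP : 1 ≤ P) (hi : 1 ≤ i) (hN : (i + 1) * P ≤ N) (hθ0 : 0 ≤ θ) (hθ1 : θ < 1)
    (hi2 : (N : ℝ) ^ (1 - θ) ≤ i) {u : ℝ} (hu1 : xx N P (i + 1) ≤ u) (hu2 : u ≤ xx N P i) {e : ℕ}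
    (he : e ∈ Finset.Ioc (i * P) ((i + 1) * P)) : |(N : ℝ) / e - u| ≤ u ^ θ := by
  obtain ⟨h1, h2, h3, h4, -⟩ := xx_facts hP hi hN
  rw [Finset.mem_Ioc] at he
  have hi0 : (0 : ℝ) < i := by exact_mod_cast hi
  have hA : 0 < i * P := Nat.mul_pos hi hP
  have hA' : (0 : ℝ) < ((i * P : ℕ) : ℝ) := by exact_mod_cast hA
  have he0 : (0 : ℝ) < e := by exact_mod_cast (by omega : 0 < e)
  have k1 : xx N P (i + 1) ≤ (N : ℝ) / e := by
    unfold xx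
    refine div_le_div_of_nonneg_left (Nat.cast_nonneg _) he0 ?_
    exact_mod_cast he.2
  have k2 : (N : ℝ) / e ≤ xx N P i := by
    unfold xx
    refine div_le_div_of_nonneg_left (Nat.cast_nonneg _) hA' ?_
    exact_mod_cast he.1.le
  have k3 : |(N : ℝ) / e - u| ≤ xx N P (i + 1) / i := by
    rw [abs_le]
    constructor <;> linarith
  refine k3.trans ?_
  obtain ⟨a, ha⟩ : ∃ a : ℝ, a = xx N P (i + 1) := ⟨_, rfl⟩
  rw [← ha] at h1 h3 hu1 ⊢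
  have ha0 : 0 < a := by linarith
  have k4 : a ^ θ ≤ u ^ θ := Real.rpow_le_rpow ha0.le hu1 hθ0
  have k5 : a ^ (1 - θ) ≤ (N : ℝ) ^ (1 - θ) := Real.rpow_le_rpow ha0.le h3 (by linarith)
  have k6 : a = a ^ θ * a ^ (1 - θ) := by
    rw [← Real.rpow_add ha0]
    have : θ + (1 - θ) = 1 := by ring
    rw [this, Real.rpow_one]
  have k7 : a ≤ a ^ θ * i := by
    calc a = a ^ θ * a ^ (1 - θ) := k6
      _ ≤ a ^ θ * i := mul_le_mul_of_nonneg_left (k5.trans hi2) (Real.rpow_nonneg ha0.le _)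
  rw [div_le_iff₀ hi0]
  calc a ≤ a ^ θ * i := k7
    _ ≤ u ^ θ * i := mul_le_mul_of_nonneg_right k4 hi0.le

/-- the oscillation data -/
structure Osc (θ : ℝ) (O : ℝ → ℝ) : Prop where
  nn : ∀ u : ℝ, 1 ≤ u → 0 ≤ O u ∧ ∀ y : ℝ, |y - u| ≤ u ^ θ → |hh y - hh u| ≤ O u
  int : IntegrableOn (fun u => (O u / u) ^ 2) (Ioi 1)

lemma q_II {θ : ℝ} {O : ℝ → ℝ} (hO : Osc θ O) {a b : ℝ} (ha : 1 ≤ a) (hab : a ≤ b) :
    IntervalIntegrable (fun u => (O u / u) ^ 2) volume a b := by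
  rw [intervalIntegrable_iff_integrableOn_Ioc_of_le hab]
  refine hO.int.mono_set ?_
  intro x hx
  exact lt_of_le_of_lt ha hx.1

lemma block {N P i K : ℕ} {θ η : ℝ} {O : ℝ → ℝ} (hO : Osc θ O) (hP : 1 ≤ P) (hi : 1 ≤ i)
    (hN : (i + 1) * P ≤ N) (hθ0 : 0 ≤ θ) (hθ1 : θ < 1) (hi2 : (N : ℝ) ^ (1 - θ) ≤ i) (hη : 0 < η)
    (hK : 1 ≤ K) (hKP : ∀ k, 1 ≤ k → k ≤ K → k ∣ P) :
    mm K * (H2 (xx N P i) - H2 (xx N P (i + 1))) ≤
      (1 + η) / N * (∑ e ∈ Finset.Ioc (i * P) ((i + 1) * P), j2 e * hh ((N : ℝ) / e) ^ 2) +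
        2 * (1 + 1 / η) * ∫ u in (xx N P (i + 1))..(xx N P i), (O u / u) ^ 2 := by
  obtain ⟨h1, h2, h3, -, h5⟩ := xx_facts hP hi hN
  have hP0 : (0 : ℝ) < P := by exact_mod_cast hP
  have hN0 : (0 : ℝ) < N := lt_of_lt_of_le (by linarith) h3
  rw [H2_sub h1 h2]
  obtain ⟨a, ha⟩ : ∃ a : ℝ, a = xx N P (i + 1) := ⟨_, rfl⟩
  obtain ⟨b, hb⟩ : ∃ b : ℝ, b = xx N P i := ⟨_, rfl⟩
  obtain ⟨J, hJ⟩ : ∃ J : ℝ, J = ∑ e ∈ Finset.Ioc (i * P) ((i + 1) * P), j2 e := ⟨_, rfl⟩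
  obtain ⟨T, hT⟩ : ∃ T : ℝ, T = ∑ e ∈ Finset.Ioc (i * P) ((i + 1) * P), j2 e * hh ((N : ℝ) / e) ^ 2 := ⟨_, rfl⟩
  have hJl : (P : ℝ) * mm K ≤ J := by rw [hJ]; exact block_lower hK hKP
  have hJu : J ≤ 2 * P := by rw [hJ]; exact block_upper
  have hj0 : ∀ e ∈ Finset.Ioc (i * P) ((i + 1) * P), 0 ≤ j2 e := by
    intro e he
    rw [Finset.mem_Ioc] at he
    have := j2_ge e (lt_of_le_of_lt (Nat.zero_le _) he.1)
    linarith
  have hJ0 : 0 ≤ J := by rw [hJ]; exact Finset.sum_nonneg hj0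
  have hpt : ∀ u ∈ Icc a b, J * g u ≤ (1 + η) * T * (1 / u ^ 2) + (1 + 1 / η) * J * (O u / u) ^ 2 := by
    intro u hu
    have hu1 : 1 ≤ u := by linarith [hu.1]
    have hu0 : 0 < u := by linarith
    have k1 : J * hh u ^ 2 ≤ (1 + η) * T + (1 + 1 / η) * J * O u ^ 2 := by
      have k2 : ∀ e ∈ Finset.Ioc (i * P) ((i + 1) * P), j2 e * hh u ^ 2 ≤
          (1 + η) * (j2 e * hh ((N : ℝ) / e) ^ 2) + (1 + 1 / η) * O u ^ 2 * j2 e := by
        intro e he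
        have k3 := (hO.nn u hu1).2 _ (near hP hi hN hθ0 hθ1 hi2 (ha ▸ hu.1) (hb ▸ hu.2) he)
        have k4 := mul_le_mul_of_nonneg_left (alg hη k3) (hj0 e he)
        linarith
      have k5 := Finset.sum_le_sum k2
      rw [← Finset.sum_mul, ← hJ, Finset.sum_add_distrib, ← Finset.mul_sum, ← Finset.mul_sum, ← hT, ← hJ] at k5
      linarith
    have k6 := mul_le_mul_of_nonneg_right k1 (by positivity : (0 : ℝ) ≤ 1 / u ^ 2)
    have e1 : J * Pool.Agent.Q176.FA.W5.g u = J * hh u ^ 2 * (1 / u ^ 2) := by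
      show J * (hh u / u) ^ 2 = _
      rw [div_pow]
      ring
    have e2 : (1 + η) * T * (1 / u ^ 2) + (1 + 1 / η) * J * (O u / u) ^ 2 =
        ((1 + η) * T + (1 + 1 / η) * J * O u ^ 2) * (1 / u ^ 2) := by
      rw [div_pow]
      ring
    rw [e1, e2]
    exact k6
  rw [← ha, ← hb, ← hT]
  rw [← ha] at h1 h2 h5
  rw [← hb] at h2 h5
  obtain ⟨i1, i2⟩ := inv_sq (by linarith : 0 < a) h2
  have m1 := intervalIntegral.integral_mono_on h2 ((g_II h1 h2).const_mul J)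
    ((i1.const_mul ((1 + η) * T)).add ((q_II hO h1 h2).const_mul ((1 + 1 / η) * J))) hpt
  rw [intervalIntegral.integral_const_mul, intervalIntegral.integral_add (i1.const_mul _)
    ((q_II hO h1 h2).const_mul _), intervalIntegral.integral_const_mul, intervalIntegral.integral_const_mul,
    i2, h5] at m1
  have hG : 0 ≤ ∫ u in a..b, g u := intervalIntegral.integral_nonneg h2 fun u _ => sq_nonneg _
  have hQ : 0 ≤ ∫ u in a..b, (O u / u) ^ 2 := intervalIntegral.integral_nonneg h2 fun u _ => sq_nonneg _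
  have m2 : (P : ℝ) * mm K * (∫ u in a..b, g u) ≤ J * ∫ u in a..b, g u := mul_le_mul_of_nonneg_right hJl hG
  have m3 : (1 + 1 / η) * J * (∫ u in a..b, (O u / u) ^ 2) ≤
      (1 + 1 / η) * (2 * P) * ∫ u in a..b, (O u / u) ^ 2 :=
    mul_le_mul_of_nonneg_right (mul_le_mul_of_nonneg_left hJu (by positivity)) hQ
  have m4 : (P : ℝ) * (mm K * ∫ u in a..b, g u) ≤
      P * ((1 + η) / N * T + 2 * (1 + 1 / η) * ∫ u in a..b, (O u / u) ^ 2) := by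
    have e3 : (P : ℝ) * ((1 + η) / N * T + 2 * (1 + 1 / η) * ∫ u in a..b, (O u / u) ^ 2) =
        (1 + η) * T * (P / N) + (1 + 1 / η) * (2 * P) * ∫ u in a..b, (O u / u) ^ 2 := by
      ring
    rw [e3]
    linarith
  exact le_of_mul_le_mul_left m4 hP0

lemma blocks {N P K : ℕ} {θ η : ℝ} {O : ℝ → ℝ} (hO : Osc θ O) (hP : 1 ≤ P) (hθ0 : 0 ≤ θ) (hθ1 : θ < 1)
    (hη : 0 < η) (hK : 1 ≤ K) (hKP : ∀ k, 1 ≤ k → k ≤ K → k ∣ P) {i0 : ℕ} (hi0 : 1 ≤ i0)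
    (hi2 : (N : ℝ) ^ (1 - θ) ≤ i0) (i1 : ℕ) (h01 : i0 ≤ i1) : i1 * P ≤ N →
    1 ≤ xx N P i1 ∧ xx N P i1 ≤ xx N P i0 ∧ mm K * (H2 (xx N P i0) - H2 (xx N P i1)) ≤
      (1 + η) / N * (∑ e ∈ Finset.Ioc (i0 * P) (i1 * P), j2 e * hh ((N : ℝ) / e) ^ 2) +
        2 * (1 + 1 / η) * ∫ u in (xx N P i1)..(xx N P i0), (O u / u) ^ 2 := by
  induction i1, h01 using Nat.le_induction with
  | base =>
    intro hN
    refine ⟨?_, le_rfl, ?_⟩
    · unfold xx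
      have h1 : 0 < i0 * P := Nat.mul_pos hi0 hP
      rw [le_div_iff₀ (by exact_mod_cast h1), one_mul]
      exact_mod_cast hN
    · rw [sub_self, mul_zero, Finset.Ioc_self, Finset.sum_empty, mul_zero, intervalIntegral.integral_same,
        mul_zero, add_zero]
  | succ i hi ih =>
    intro hN
    have hN' : i * P ≤ N := le_trans (Nat.mul_le_mul_right _ (by omega)) hN
    obtain ⟨k1, k2, k3⟩ := ih hN'
    have hi1 : 1 ≤ i := by omega
    obtain ⟨h1, h2, -, -, -⟩ := xx_facts hP hi1 hN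
    have hi3 : (N : ℝ) ^ (1 - θ) ≤ i := hi2.trans (by exact_mod_cast hi)
    have k4 := block hO hP hi1 hN hθ0 hθ1 hi3 hη hK hKP
    refine ⟨h1, h2.trans k2, ?_⟩
    have e1 : ∑ e ∈ Finset.Ioc (i0 * P) ((i + 1) * P), j2 e * hh ((N : ℝ) / e) ^ 2 =
        (∑ e ∈ Finset.Ioc (i0 * P) (i * P), j2 e * hh ((N : ℝ) / e) ^ 2) +
          ∑ e ∈ Finset.Ioc (i * P) ((i + 1) * P), j2 e * hh ((N : ℝ) / e) ^ 2 :=
      (Finset.sum_Ioc_consecutive _ (Nat.mul_le_mul_right _ hi) (Nat.mul_le_mul_right _ (by omega))).symm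
    have e2 : (∫ u in (xx N P (i + 1))..(xx N P i0), (O u / u) ^ 2) =
        (∫ u in (xx N P (i + 1))..(xx N P i), (O u / u) ^ 2) +
          ∫ u in (xx N P i)..(xx N P i0), (O u / u) ^ 2 :=
      (intervalIntegral.integral_add_adjacent_intervals (q_II hO h1 h2) (q_II hO k1 k2)).symm
    rw [e1, e2]
    have e3 : mm K * (H2 (xx N P i0) - H2 (xx N P (i + 1))) =
        mm K * (H2 (xx N P i0) - H2 (xx N P i)) + mm K * (H2 (xx N P i) - H2 (xx N P (i + 1))) := by ring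
    rw [e3]
    linarith

lemma choose_par {c : ℝ} (hc : c < zs / (12 * z3)) : ∃ (K : ℕ) (δ : ℝ), 1 ≤ K ∧ 0 < δ ∧ δ < 1 ∧ 0 < mm K ∧
    c < mm K * (zs * (1 - δ)) / (12 * (1 + δ)) := by
  have h1 : Tendsto (fun n : ℕ => 1 / ((n : ℝ) + 2)) atTop (𝓝 0) := by
    have h := (tendsto_one_div_atTop_nhds_zero_nat (𝕜 := ℝ)).comp (tendsto_add_atTop_nat 2)
    refine h.congr ?_
    intro n
    show 1 / (((n + 2 : ℕ) : ℝ)) = _
    push_cast
    rfl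
  have h2 : Tendsto (fun n : ℕ => mm (n + 1)) atTop (𝓝 (1 / z3)) := mm_tendsto.comp (tendsto_add_atTop_nat 1)
  have h3 : Tendsto (fun n : ℕ => mm (n + 1) * (zs * (1 - 1 / ((n : ℝ) + 2))) / (12 * (1 + 1 / ((n : ℝ) + 2)))) atTop
      (𝓝 (1 / z3 * (zs * (1 - 0)) / (12 * (1 + 0)))) := by
    refine Tendsto.div ?_ ?_ (by norm_num)
    · exact h2.mul ((tendsto_const_nhds.sub h1).const_mul zs)
    · exact (tendsto_const_nhds.add h1).const_mul 12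
  have e : 1 / z3 * (zs * (1 - 0)) / (12 * (1 + 0)) = zs / (12 * z3) := by
    have := z3_pos.ne'
    field_simp
    ring
  rw [e] at h3
  have h4 := h3.eventually (lt_mem_nhds hc)
  have h5 := h2.eventually (lt_mem_nhds (one_div_pos.2 z3_pos))
  obtain ⟨n, hn1, hn2⟩ := (h4.and h5).exists
  refine ⟨n + 1, 1 / ((n : ℝ) + 2), by omega, by positivity, ?_, hn2, hn1⟩
  rw [div_lt_one (by positivity)]
  linarith [(Nat.cast_nonneg n : (0 : ℝ) ≤ n)]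

lemma main_low (h1 : J_W1) {K : ℕ} {δ : ℝ} {O : ℝ → ℝ} (hO : Osc (1 - δ) O) (hK : 1 ≤ K) (hδ0 : 0 < δ)
    (hδ1 : δ < 1) (hm : 0 < mm K) : ∃ D : ℝ, ∀ᶠ N : ℕ in atTop,
      (N : ℝ) / (12 * (1 + δ)) * (mm K * H2 ((N : ℝ) ^ (1 - δ) / (2 * K.factorial)) - D) ≤ FI N := by
  obtain ⟨P, hPd⟩ : ∃ P : ℕ, P = K.factorial := ⟨_, rfl⟩
  have hP : 1 ≤ P := by rw [hPd]; exact Nat.factorial_pos K
  have hKP : ∀ k, 1 ≤ k → k ≤ K → k ∣ P := by
    intro k hk1 hk2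
    rw [hPd]
    exact Nat.dvd_factorial hk1 hk2
  rw [← hPd]
  have hP0 : (0 : ℝ) < P := by exact_mod_cast hP
  refine ⟨mm K * H2 2 + 2 * (1 + 1 / δ) * ∫ u in Ioi (1 : ℝ), (O u / u) ^ 2, ?_⟩
  have hev : ∀ᶠ N : ℕ in atTop, 2 * (P : ℝ) ≤ (N : ℝ) ^ (1 - δ) :=
    ((tendsto_rpow_atTop (by linarith : 0 < 1 - δ)).comp tendsto_natCast_atTop_atTop).eventually_ge_atTop _
  filter_upwards [hev, eventually_ge_atTop 1, eventually_ge_atTop P] with N hN1 hN2 hN3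
  have hN0 : (0 : ℝ) < N := by exact_mod_cast hN2
  have hN1' : (1 : ℝ) ≤ N := by exact_mod_cast hN2
  obtain ⟨i0, hi0⟩ : ∃ i0 : ℕ, i0 = ⌈(N : ℝ) ^ δ⌉₊ := ⟨_, rfl⟩
  obtain ⟨i1, hi1⟩ : ∃ i1 : ℕ, i1 = N / P := ⟨_, rfl⟩
  have hNd : (1 : ℝ) ≤ (N : ℝ) ^ δ := Real.one_le_rpow hN1' hδ0.le
  have hsplit : (N : ℝ) ^ (1 - δ) * (N : ℝ) ^ δ = N := by
    rw [← Real.rpow_add hN0]
    have : 1 - δ + δ = 1 := by ring
    rw [this, Real.rpow_one]
  have hi0l : (N : ℝ) ^ δ ≤ i0 := by rw [hi0]; exact Nat.le_ceil _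
  have hi0u : (i0 : ℝ) ≤ 2 * (N : ℝ) ^ δ := by
    have := Nat.ceil_lt_add_one (by linarith : (0 : ℝ) ≤ (N : ℝ) ^ δ)
    rw [← hi0] at this
    linarith
  have hi01 : 1 ≤ i0 := by
    have : (1 : ℝ) ≤ i0 := hNd.trans hi0l
    exact_mod_cast this
  have hA : i0 * P ≤ N := by
    have : (i0 : ℝ) * P ≤ N := by
      calc (i0 : ℝ) * P ≤ 2 * (N : ℝ) ^ δ * P := mul_le_mul_of_nonneg_right hi0u hP0.le
        _ = (2 * P) * (N : ℝ) ^ δ := by ring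
        _ ≤ (N : ℝ) ^ (1 - δ) * (N : ℝ) ^ δ := mul_le_mul_of_nonneg_right hN1 (by linarith)
        _ = N := hsplit
    exact_mod_cast this
  have h01 : i0 ≤ i1 := by
    rw [hi1, Nat.le_div_iff_mul_le hP]
    exact hA
  have hB : i1 * P ≤ N := by rw [hi1]; exact Nat.div_mul_le_self N P
  have hi11 : 1 ≤ i1 := hi01.trans h01
  have hC : N ≤ 2 * (i1 * P) := by
    have h3 : N < (i1 + 1) * P := by
      rw [hi1]
      have := Nat.lt_succ_iff.2 (le_refl (N / P))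
      have h4 := (Nat.div_lt_iff_lt_mul hP).1 (Nat.lt_succ_self (N / P))
      exact h4
    have h4 : P ≤ i1 * P := Nat.le_mul_of_pos_left P hi11
    have h5 : (i1 + 1) * P = i1 * P + P := by ring
    omega
  have hi2 : (N : ℝ) ^ (1 - (1 - δ)) ≤ i0 := by
    have : 1 - (1 - δ) = δ := by ring
    rw [this]
    exact hi0l
  obtain ⟨k1, k2, k3⟩ := blocks hO hP (by linarith : 0 ≤ 1 - δ) (by linarith) hδ0 hK hKP hi01 hi2 i1 h01 hB
  have m1 : xx N P i1 ≤ 2 := by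
    unfold xx
    have h3 : (0 : ℝ) < ((i1 * P : ℕ) : ℝ) := by exact_mod_cast Nat.mul_pos hi11 hP
    rw [div_le_iff₀ h3]
    exact_mod_cast hC
  have m2 : (N : ℝ) ^ (1 - δ) / (2 * P) ≤ xx N P i0 := by
    unfold xx
    have h3 : (0 : ℝ) < ((i0 * P : ℕ) : ℝ) := by exact_mod_cast Nat.mul_pos hi01 hP
    rw [div_le_div_iff₀ (by positivity) h3]
    push_cast
    calc (N : ℝ) ^ (1 - δ) * (i0 * P) ≤ (N : ℝ) ^ (1 - δ) * ((2 * (N : ℝ) ^ δ) * P) := by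
          refine mul_le_mul_of_nonneg_left (mul_le_mul_of_nonneg_right hi0u hP0.le) (Real.rpow_nonneg hN0.le _)
      _ = ((N : ℝ) ^ (1 - δ) * (N : ℝ) ^ δ) * (2 * P) := by ring
      _ = N * (2 * P) := by rw [hsplit]
  have m3 : 1 ≤ (N : ℝ) ^ (1 - δ) / (2 * P) := by
    rw [le_div_iff₀ (by positivity), one_mul]
    exact hN1
  have n1 : H2 (xx N P i1) ≤ H2 2 := H2_mono k1 m1
  have n2 : H2 ((N : ℝ) ^ (1 - δ) / (2 * P)) ≤ H2 (xx N P i0) := H2_mono m3 m2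
  have n3 : (∫ u in (xx N P i1)..(xx N P i0), (O u / u) ^ 2) ≤ ∫ u in Ioi (1 : ℝ), (O u / u) ^ 2 := by
    rw [intervalIntegral.integral_of_le k2]
    refine setIntegral_mono_set hO.int (Eventually.of_forall fun u => sq_nonneg _) ?_
    have hs : Ioc (xx N P i1) (xx N P i0) ⊆ Ioi (1 : ℝ) := fun u hu => lt_of_le_of_lt k1 hu.1
    exact hs.eventuallyLE
  have n4 : ∑ e ∈ Finset.Ioc (i0 * P) (i1 * P), j2 e * hh ((N : ℝ) / e) ^ 2 ≤
      ∑ e ∈ Finset.Icc 1 N, j2 e * hh ((N : ℝ) / e) ^ 2 := by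
    refine Finset.sum_le_sum_of_subset_of_nonneg ?_ ?_
    · intro e he
      rw [Finset.mem_Ioc] at he
      rw [Finset.mem_Icc]
      omega
    · intro e he _
      have := j2_ge e (Finset.mem_Icc.1 he).1
      exact mul_nonneg (by linarith) (sq_nonneg _)
  rw [h1 N hN2]
  obtain ⟨S, hS⟩ : ∃ S : ℝ, S = ∑ e ∈ Finset.Icc 1 N, j2 e * hh ((N : ℝ) / e) ^ 2 := ⟨_, rfl⟩
  rw [← hS] at n4 ⊢
  have p1 : (1 + δ) / N * (∑ e ∈ Finset.Ioc (i0 * P) (i1 * P), j2 e * hh ((N : ℝ) / e) ^ 2) ≤ (1 + δ) / N * S :=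
    mul_le_mul_of_nonneg_left n4 (by positivity)
  have p2 := mul_le_mul_of_nonneg_left n3 (by positivity : (0 : ℝ) ≤ 2 * (1 + 1 / δ))
  have p3 : mm K * (H2 ((N : ℝ) ^ (1 - δ) / (2 * P)) - H2 2) ≤ mm K * (H2 (xx N P i0) - H2 (xx N P i1)) :=
    mul_le_mul_of_nonneg_left (by linarith) hm.le
  have p4 : mm K * H2 ((N : ℝ) ^ (1 - δ) / (2 * P)) -
      (mm K * H2 2 + 2 * (1 + 1 / δ) * ∫ u in Ioi (1 : ℝ), (O u / u) ^ 2) ≤ (1 + δ) / N * S := by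
    have e : mm K * (H2 ((N : ℝ) ^ (1 - δ) / (2 * P)) - H2 2) =
        mm K * H2 ((N : ℝ) ^ (1 - δ) / (2 * P)) - mm K * H2 2 := by ring
    linarith
  have p5 := mul_le_mul_of_nonneg_left p4 (by positivity : (0 : ℝ) ≤ (N : ℝ) / (12 * (1 + δ)))
  have e2 : (N : ℝ) / (12 * (1 + δ)) * ((1 + δ) / N * S) = 1 / 12 * S := by
    have : 1 + δ ≠ 0 := by linarith
    field_simp
  rw [e2] at p5
  linarith

lemma H2_lim (h2 : Tendsto (fun x : ℝ => H2 x / Real.log x) atTop (𝓝 zs)) {δ D : ℝ} (hδ1 : δ < 1) (hD : 0 < D) :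
    Tendsto (fun N : ℕ => H2 ((N : ℝ) ^ (1 - δ) / D) / Real.log N) atTop (𝓝 (zs * (1 - δ))) := by
  have hx : Tendsto (fun N : ℕ => (N : ℝ) ^ (1 - δ) / D) atTop atTop :=
    (((tendsto_rpow_atTop (by linarith : 0 < 1 - δ)).comp tendsto_natCast_atTop_atTop)).atTop_div_const hD
  have h3 := h2.comp hx
  have hl : Tendsto (fun N : ℕ => Real.log (N : ℝ)) atTop atTop :=
    Real.tendsto_log_atTop.comp tendsto_natCast_atTop_atTop
  have h4 : Tendsto (fun N : ℕ => (1 - δ) - Real.log D / Real.log (N : ℝ)) atTop (𝓝 ((1 - δ) - 0)) :=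
    tendsto_const_nhds.sub (hl.const_div_atTop _)
  rw [sub_zero] at h4
  refine (h3.mul h4).congr' ?_
  have hlx := (Real.tendsto_log_atTop.comp hx).eventually_gt_atTop 0
  filter_upwards [hlx, hl.eventually_gt_atTop 0, eventually_ge_atTop 1] with N hN1 hN2 hN3
  have hN0 : (0 : ℝ) < N := by exact_mod_cast hN3
  have e1 : Real.log ((N : ℝ) ^ (1 - δ) / D) = (1 - δ) * Real.log N - Real.log D := by
    rw [Real.log_div (Real.rpow_pos_of_pos hN0 _).ne' hD.ne', Real.log_rpow hN0]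
  have hN1' : 0 < (1 - δ) * Real.log N - Real.log D := by
    rw [← e1]
    exact hN1
  show H2 ((N : ℝ) ^ (1 - δ) / D) / Real.log ((N : ℝ) ^ (1 - δ) / D) * ((1 - δ) - Real.log D / Real.log N) = _
  rw [e1]
  have e2 : (1 - δ) - Real.log D / Real.log N = ((1 - δ) * Real.log N - Real.log D) / Real.log N := by
    field_simp
  rw [e2]
  field_simp

/-- Job FA-W4. -/
theorem t_W4 (h1 : J_W1) (h2 : J_W2) (h3 : J_W3) : J_W4 := by
  intro hZ c hc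
  obtain ⟨K, δ, hK, hδ0, hδ1, hm, hc2⟩ := choose_par hc
  obtain ⟨O, -, hO1, hO2⟩ := h3 hZ (1 - δ) (by linarith) (by linarith)
  obtain ⟨D, hD⟩ := main_low h1 (⟨hO1, hO2⟩ : Osc (1 - δ) O) hK hδ0 hδ1 hm
  have hP0 : (0 : ℝ) < 2 * K.factorial := by
    have : (0 : ℝ) < K.factorial := by exact_mod_cast Nat.factorial_pos K
    linarith
  have h4 := H2_lim (h2.1 hZ) hδ1 hP0
  have hl : Tendsto (fun N : ℕ => Real.log (N : ℝ)) atTop atTop :=
    Real.tendsto_log_atTop.comp tendsto_natCast_atTop_atTop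
  have h5 : Tendsto (fun N : ℕ => (mm K * (H2 ((N : ℝ) ^ (1 - δ) / (2 * K.factorial)) / Real.log N) -
      D / Real.log N) / (12 * (1 + δ))) atTop (𝓝 ((mm K * (zs * (1 - δ)) - 0) / (12 * (1 + δ)))) :=
    ((h4.const_mul (mm K)).sub (hl.const_div_atTop D)).div_const _
  rw [sub_zero] at h5
  filter_upwards [hD, h5.eventually (lt_mem_nhds hc2), hl.eventually_gt_atTop 0] with N hN1 hN2 hN3
  refine le_trans ?_ hN1
  have hN0 : (0 : ℝ) ≤ N := Nat.cast_nonneg N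
  have h6 := mul_le_mul_of_nonneg_right hN2.le (mul_nonneg hN0 hN3.le)
  refine h6.trans (le_of_eq ?_)
  have hd : 1 + δ ≠ 0 := by linarith
  field_simp

end Pool.Agent.Q176.FA.W4
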