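import Pool.Agent.Q120.FA.Stm4

set_option autoImplicit false

namespace Pool.Agent.Q176.FA.W5

open MeasureTheory Filter Topology Set
open Pool.Agent.Q120.FA

lemma sum_sq_le (e : ℕ) (he : 2 ≤ e) :
    ∑ k ∈ Finset.Icc 2 e, 1 / (k : ℝ) ^ 2 ≤ 3 / 4 - 1 / (e : ℝ) := by
  induction e, he using Nat.le_induction with
  | base => norm_num
  | succ n hn ih =>
    rw [Finset.sum_Icc_succ_top (by omega)]
    have hn0 : (0 : ℝ) < n := by exact_mod_cast (by omega : 0 < n)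
    have h : 1 / ((n + 1 : ℕ) : ℝ) ^ 2 ≤ 1 / (n : ℝ) - 1 / ((n + 1 : ℕ) : ℝ) := by
      push_cast
      rw [div_sub_div _ _ hn0.ne' (by positivity), div_le_div_iff₀ (by positivity) (by positivity)]
      nlinarith
    linarith

lemma j2_ge (e : ℕ) (he : 1 ≤ e) : 1 / 4 ≤ j2 e := by
  classical
  unfold j2
  have h1 : (1 : ℕ) ∈ e.divisors := by
    rw [Nat.mem_divisors]
    exact ⟨one_dvd _, by omega⟩
  rw [← Finset.add_sum_erase _ _ h1]
  have h2 : ∀ k ∈ e.divisors.erase 1, -(1 / (k : ℝ) ^ 2) ≤ ((ArithmeticFunction.moebius k : ℤ) : ℝ) / (k : ℝ) ^ 2 := by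
    intro k _
    have h3 : |((ArithmeticFunction.moebius k : ℤ) : ℝ)| ≤ 1 := by
      exact_mod_cast ArithmeticFunction.abs_moebius_le_one (n := k)
    have h4 := (abs_le.1 h3).1
    rw [← neg_div]
    exact div_le_div_of_nonneg_right h4 (sq_nonneg _)
  have h5 := Finset.sum_le_sum h2
  rw [Finset.sum_neg_distrib] at h5
  have h6 : ∑ k ∈ e.divisors.erase 1, 1 / (k : ℝ) ^ 2 ≤ 3 / 4 := by
    by_cases he2 : 2 ≤ e
    · have h7 : ∑ k ∈ e.divisors.erase 1, 1 / (k : ℝ) ^ 2 ≤ ∑ k ∈ Finset.Icc 2 e, 1 / (k : ℝ) ^ 2 := by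
        refine Finset.sum_le_sum_of_subset_of_nonneg ?_ (fun k _ _ => by positivity)
        intro k hk
        rw [Finset.mem_erase, Nat.mem_divisors] at hk
        have h8 : 0 < k := Nat.pos_of_dvd_of_pos hk.2.1 (by omega)
        have h9 := Nat.le_of_dvd (by omega) hk.2.1
        rw [Finset.mem_Icc]
        omega
      have h10 := sum_sq_le e he2
      have h11 : (0 : ℝ) ≤ 1 / (e : ℝ) := by positivity
      linarith
    · have h7 : e = 1 := by omega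
      rw [h7]
      norm_num
  have h8 : ((ArithmeticFunction.moebius 1 : ℤ) : ℝ) / ((1 : ℕ) : ℝ) ^ 2 = 1 := by
    rw [ArithmeticFunction.moebius_apply_one]
    norm_num
  rw [h8]
  linarith

lemma hh_floor {y : ℝ} (_hy : 0 ≤ y) : hh y = hh ((⌊y⌋₊ : ℕ) : ℝ) := by
  unfold hh
  rw [Nat.floor_natCast]
  refine Finset.sum_congr rfl ?_
  intro m _
  have h : Mr (y / m) = Mr (((⌊y⌋₊ : ℕ) : ℝ) / m) := by
    unfold Mr
    rw [Nat.floor_div_natCast, Nat.floor_div_natCast, Nat.floor_natCast]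
  rw [h]

/-- the integrand of `H2` -/
noncomputable def g (u : ℝ) : ℝ := (hh u / u) ^ 2

lemma g_eq {n : ℕ} {u : ℝ} (h1 : (n : ℝ) ≤ u) (h2 : u < n + 1) : g u = (hh n / u) ^ 2 := by
  unfold g
  have h0 : (0 : ℝ) ≤ u := le_trans (Nat.cast_nonneg n) h1
  rw [hh_floor h0]
  have : ⌊u⌋₊ = n := by
    rw [Nat.floor_eq_iff h0]
    exact ⟨h1, h2⟩
  rw [this]

lemma g_ae (n : ℕ) : ∀ᵐ u : ℝ, u ∈ Set.uIoc (n : ℝ) (n + 1 : ℝ) → g u = (hh n / u) ^ 2 := by
  have h := Measure.ae_ne (volume : Measure ℝ) ((n : ℝ) + 1)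
  filter_upwards [h] with u hu hu2
  rw [uIoc_of_le (by linarith)] at hu2
  exact g_eq hu2.1.le (lt_of_le_of_ne hu2.2 hu)

lemma g_int {n : ℕ} (hn : 1 ≤ n) : IntervalIntegrable g volume (n : ℝ) (n + 1 : ℝ) := by
  have hn0 : (0 : ℝ) < n := by exact_mod_cast hn
  have h1 : IntervalIntegrable (fun u : ℝ => (hh n / u) ^ 2) volume (n : ℝ) (n + 1 : ℝ) := by
    apply ContinuousOn.intervalIntegrable
    rw [uIcc_of_le (by linarith)]
    refine ContinuousOn.pow (ContinuousOn.div continuousOn_const continuousOn_id ?_) 2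
    intro x hx
    have : 0 < x := lt_of_lt_of_le hn0 hx.1
    exact this.ne'
  refine h1.congr_ae ?_
  rw [Filter.EventuallyEq, ae_restrict_iff' measurableSet_uIoc]
  filter_upwards [g_ae n] with u hu hu2
  exact (hu hu2).symm

lemma g_bd {n : ℕ} (hn : 1 ≤ n) : ∫ u in (n : ℝ)..(n + 1 : ℝ), g u ≤ hh n ^ 2 / (n : ℝ) ^ 2 := by
  have hn0 : (0 : ℝ) < n := by exact_mod_cast hn
  have h1 : ‖∫ u in (n : ℝ)..(n + 1 : ℝ), g u‖ ≤ hh n ^ 2 / (n : ℝ) ^ 2 * |(n : ℝ) + 1 - n| := by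
    apply intervalIntegral.norm_integral_le_of_norm_le_const_ae
    filter_upwards [g_ae n] with u hu hu2
    rw [hu hu2, Real.norm_of_nonneg (sq_nonneg _), div_pow]
    rw [uIoc_of_le (by linarith)] at hu2
    refine div_le_div_of_nonneg_left (sq_nonneg _) (by positivity) ?_
    exact pow_le_pow_left₀ hn0.le hu2.1.le 2
  have h2 : |(n : ℝ) + 1 - n| = 1 := by
    rw [add_sub_cancel_left, abs_one]
  rw [h2, mul_one] at h1
  exact le_trans (le_abs_self _) h1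

lemma H2_le (K : ℕ) : H2 ((K : ℝ) + 1) ≤ ∑ n ∈ Finset.Icc 1 K, hh n ^ 2 / (n : ℝ) ^ 2 := by
  have h1 : ∑ k ∈ Finset.Ico 1 (K + 1), ∫ u in ((k : ℕ) : ℝ)..((k + 1 : ℕ) : ℝ), g u =
      ∫ u in ((1 : ℕ) : ℝ)..((K + 1 : ℕ) : ℝ), g u := by
    apply intervalIntegral.sum_integral_adjacent_intervals_Ico (by omega)
    intro k hk
    have := g_int (n := k) hk.1
    exact_mod_cast this
  have h2 : H2 ((K : ℝ) + 1) = ∫ u in ((1 : ℕ) : ℝ)..((K + 1 : ℕ) : ℝ), g u := by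
    unfold H2 g
    push_cast
    rfl
  rw [h2, ← h1]
  have h3 : Finset.Ico 1 (K + 1) = Finset.Icc 1 K := by
    ext k
    rw [Finset.mem_Ico, Finset.mem_Icc]
    omega
  rw [h3]
  refine Finset.sum_le_sum ?_
  intro k hk
  have := g_bd (n := k) (Finset.mem_Icc.1 hk).1
  push_cast
  exact this

lemma fibre {N n : ℕ} (hn : 1 ≤ n) (hN : 2 * (n * (n + 1)) ≤ N) :
    (N : ℝ) / (4 * (n : ℝ) ^ 2) * hh n ^ 2 ≤
      ∑ e ∈ Finset.Icc 1 N with N / e = n, hh ((N : ℝ) / e) ^ 2 := by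
  have hn0 : (0 : ℝ) < n := by exact_mod_cast hn
  have h1 : ∑ e ∈ Finset.Icc 1 N with N / e = n, hh ((N : ℝ) / e) ^ 2 =
      ∑ e ∈ Finset.Icc 1 N with N / e = n, hh n ^ 2 := by
    refine Finset.sum_congr rfl ?_
    intro e he
    rw [Finset.mem_filter] at he
    rw [hh_floor (by positivity : (0 : ℝ) ≤ (N : ℝ) / e), Nat.floor_div_natCast, Nat.floor_natCast, he.2]
  rw [h1, Finset.sum_const, nsmul_eq_mul]
  refine mul_le_mul_of_nonneg_right ?_ (sq_nonneg _)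
  have h2 : Finset.Ioc (N / (n + 1)) (N / n) ⊆ Finset.filter (fun e => N / e = n) (Finset.Icc 1 N) := by
    intro e he
    rw [Finset.mem_Ioc] at he
    have he0 : 0 < e := lt_of_le_of_lt (Nat.zero_le _) he.1
    have h3 : n ≤ N / e := by
      rw [Nat.le_div_iff_mul_le he0]
      have := (Nat.le_div_iff_mul_le (by omega : 0 < n)).1 he.2
      rw [mul_comm]
      exact this
    have h4 : N / e < n + 1 := by
      rw [Nat.div_lt_iff_lt_mul he0]
      have := (Nat.div_lt_iff_lt_mul (by omega : 0 < n + 1)).1 he.1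
      rw [mul_comm]
      exact this
    have h5 : e ≤ N := by
      by_contra h6
      rw [Nat.div_eq_of_lt (by omega)] at h3
      omega
    rw [Finset.mem_filter, Finset.mem_Icc]
    omega
  have h3 := Finset.card_le_card h2
  rw [Nat.card_Ioc] at h3
  have h4 : (N : ℝ) / n - 1 < ((N / n : ℕ) : ℝ) := by
    have := Nat.sub_one_lt_floor ((N : ℝ) / n)
    rwa [Nat.floor_div_natCast, Nat.floor_natCast] at this
  have h5 : ((N / (n + 1) : ℕ) : ℝ) ≤ (N : ℝ) / ((n + 1 : ℕ) : ℝ) := Nat.cast_div_le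
  have h6 : ((N / n : ℕ) : ℝ) - ((N / (n + 1) : ℕ) : ℝ) ≤
      ((Finset.filter (fun e => N / e = n) (Finset.Icc 1 N)).card : ℝ) := by
    have h7 : N / n ≤ (Finset.filter (fun e => N / e = n) (Finset.Icc 1 N)).card + N / (n + 1) := by omega
    have h8 : ((N / n : ℕ) : ℝ) ≤
        ((Finset.filter (fun e => N / e = n) (Finset.Icc 1 N)).card : ℝ) + ((N / (n + 1) : ℕ) : ℝ) := by
      exact_mod_cast h7
    linarith
  have h9 : (N : ℝ) / (4 * (n : ℝ) ^ 2) ≤ (N : ℝ) / n - 1 - (N : ℝ) / ((n + 1 : ℕ) : ℝ) := by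
    have hN' : 2 * ((n : ℝ) * (n + 1)) ≤ N := by exact_mod_cast hN
    have hn1 : (1 : ℝ) ≤ n := by exact_mod_cast hn
    push_cast
    have e1 : (N : ℝ) / n - 1 - (N : ℝ) / (n + 1) = N / (n * (n + 1)) - 1 := by
      field_simp
      ring
    rw [e1]
    have e2 : (1 : ℝ) ≤ N / (n * (n + 1)) / 2 := by
      rw [le_div_iff₀ (by norm_num), le_div_iff₀ (by positivity)]
      linarith
    have e3 : (N : ℝ) / (4 * (n : ℝ) ^ 2) ≤ N / (n * (n + 1)) / 2 := by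
      rw [div_div]
      refine div_le_div_of_nonneg_left (Nat.cast_nonneg _) (by positivity) ?_
      nlinarith
    linarith
  linarith

lemma lower (h1 : J_W1) {N K : ℕ} (hN1 : 1 ≤ N) (hK : 2 * (K * (K + 1)) ≤ N) :
    (N : ℝ) / 192 * H2 ((K : ℝ) + 1) ≤ FI N := by
  rw [h1 N hN1]
  have h2 : ∑ e ∈ Finset.Icc 1 N, 1 / 4 * hh ((N : ℝ) / e) ^ 2 ≤
      ∑ e ∈ Finset.Icc 1 N, j2 e * hh ((N : ℝ) / e) ^ 2 := by
    refine Finset.sum_le_sum ?_
    intro e he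
    exact mul_le_mul_of_nonneg_right (j2_ge e (Finset.mem_Icc.1 he).1) (sq_nonneg _)
  rw [← Finset.mul_sum] at h2
  have h3 : ∑ n ∈ Finset.Icc 1 K, ∑ e ∈ Finset.Icc 1 N with N / e = n, hh ((N : ℝ) / e) ^ 2 ≤
      ∑ e ∈ Finset.Icc 1 N, hh ((N : ℝ) / e) ^ 2 :=
    Finset.sum_fiberwise_le_sum_of_sum_fiber_nonneg fun n _ => Finset.sum_nonneg fun e _ => sq_nonneg _
  have h4 : ∑ n ∈ Finset.Icc 1 K, (N : ℝ) / (4 * (n : ℝ) ^ 2) * hh n ^ 2 ≤
      ∑ n ∈ Finset.Icc 1 K, ∑ e ∈ Finset.Icc 1 N with N / e = n, hh ((N : ℝ) / e) ^ 2 := by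
    refine Finset.sum_le_sum ?_
    intro n hn
    rw [Finset.mem_Icc] at hn
    refine fibre hn.1 (le_trans ?_ hK)
    have : n * (n + 1) ≤ K * (K + 1) := Nat.mul_le_mul hn.2 (by omega)
    omega
  have h5 : ∑ n ∈ Finset.Icc 1 K, (N : ℝ) / (4 * (n : ℝ) ^ 2) * hh n ^ 2 =
      (N : ℝ) / 4 * ∑ n ∈ Finset.Icc 1 K, hh n ^ 2 / (n : ℝ) ^ 2 := by
    rw [Finset.mul_sum]
    refine Finset.sum_congr rfl ?_
    intro n hn
    have : (n : ℝ) ≠ 0 := by
      have := (Finset.mem_Icc.1 hn).1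
      exact_mod_cast (by omega : n ≠ 0)
    field_simp
  have h6 := mul_le_mul_of_nonneg_left (H2_le K) (by positivity : (0 : ℝ) ≤ (N : ℝ) / 4)
  have e : (N : ℝ) / 192 * H2 ((K : ℝ) + 1) = 1 / 48 * ((N : ℝ) / 4 * H2 ((K : ℝ) + 1)) := by ring
  rw [e]
  linarith

/-- Job FA-W5. -/
theorem t_W5 (h1 : J_W1) (h2 : J_W2) : J_W5 := by
  intro hZ
  have h3 := h2.2 hZ
  have hK : Tendsto (fun N : ℕ => (((Nat.sqrt N / 2 : ℕ) : ℝ) + 1)) atTop atTop := by
    apply tendsto_atTop_add_const_right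
    refine tendsto_natCast_atTop_atTop.comp ?_
    rw [tendsto_atTop]
    intro b
    filter_upwards [eventually_ge_atTop ((2 * b) ^ 2)] with N hN
    have h4 : 2 * b ≤ Nat.sqrt N := by
      rw [Nat.le_sqrt']
      exact hN
    omega
  have h4 := (h3.comp hK).const_mul_atTop (by norm_num : (0 : ℝ) < 1 / 768)
  refine tendsto_atTop_mono' atTop ?_ h4
  filter_upwards [eventually_ge_atTop 16] with N hN
  show 1 / 768 * (H2 (((Nat.sqrt N / 2 : ℕ) : ℝ) + 1) / Real.log (((Nat.sqrt N / 2 : ℕ) : ℝ) + 1)) ≤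
    FI N / (N * Real.log N)
  obtain ⟨K, hKd⟩ : ∃ K : ℕ, K = Nat.sqrt N / 2 := ⟨_, rfl⟩
  rw [← hKd]
  have hs : Nat.sqrt N * Nat.sqrt N ≤ N := Nat.sqrt_le N
  have hs2 : 4 ≤ Nat.sqrt N := by
    rw [Nat.le_sqrt]
    omega
  have hK1 : 2 * K ≤ Nat.sqrt N := by omega
  have hK2 : 2 ≤ K := by omega
  have hKN : 2 * (K * (K + 1)) ≤ N := by
    have : (2 * K) * (2 * K) ≤ N := le_trans (Nat.mul_le_mul hK1 hK1) hs
    nlinarith
  have hlow := lower h1 (by omega : 1 ≤ N) hKN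
  have hN0 : (0 : ℝ) < N := by exact_mod_cast (by omega : 0 < N)
  have hH : 0 ≤ H2 ((K : ℝ) + 1) := by
    unfold H2
    apply intervalIntegral.integral_nonneg
    · linarith [(Nat.cast_nonneg K : (0 : ℝ) ≤ K)]
    · intro u _
      exact sq_nonneg _
  have hlogN : 0 < Real.log N := Real.log_pos (by exact_mod_cast (by omega : 1 < N))
  have hlogK : 0 < Real.log ((K : ℝ) + 1) := by
    apply Real.log_pos
    have : (2 : ℝ) ≤ K := by exact_mod_cast hK2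
    linarith
  -- `N ≤ (K + 1)^4`
  have hN4 : N ≤ (K + 1) ^ 4 := by
    have h5 : N < (Nat.sqrt N + 1) * (Nat.sqrt N + 1) := Nat.lt_succ_sqrt N
    have h6 : Nat.sqrt N + 1 ≤ 2 * (K + 1) := by omega
    have h7 : (Nat.sqrt N + 1) * (Nat.sqrt N + 1) ≤ (2 * (K + 1)) * (2 * (K + 1)) := Nat.mul_le_mul h6 h6
    have h8 : (2 * (K + 1)) * (2 * (K + 1)) ≤ (K + 1) ^ 4 := by
      have e : (K + 1) ^ 4 = ((K + 1) * (K + 1)) * ((K + 1) * (K + 1)) := by ring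
      rw [e]
      have h9 : 4 ≤ (K + 1) * (K + 1) := by nlinarith
      nlinarith
    omega
  have hlog : Real.log N ≤ 4 * Real.log ((K : ℝ) + 1) := by
    have h5 : (N : ℝ) ≤ ((K : ℝ) + 1) ^ 4 := by exact_mod_cast hN4
    have h6 := Real.log_le_log hN0 h5
    rw [Real.log_pow] at h6
    exact_mod_cast h6
  rw [mul_div_assoc', div_le_div_iff₀ hlogK (by positivity)]
  have h7 : H2 ((K : ℝ) + 1) * Real.log N ≤ H2 ((K : ℝ) + 1) * (4 * Real.log ((K : ℝ) + 1)) :=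
    mul_le_mul_of_nonneg_left hlog hH
  have h8 : (N : ℝ) / 192 * H2 ((K : ℝ) + 1) * Real.log ((K : ℝ) + 1) ≤ FI N * Real.log ((K : ℝ) + 1) :=
    mul_le_mul_of_nonneg_right hlow hlogK.le
  calc 1 / 768 * H2 ((K : ℝ) + 1) * ((N : ℝ) * Real.log N)
      = (N : ℝ) / 768 * (H2 ((K : ℝ) + 1) * Real.log N) := by ring
    _ ≤ (N : ℝ) / 768 * (H2 ((K : ℝ) + 1) * (4 * Real.log ((K : ℝ) + 1))) :=
        mul_le_mul_of_nonneg_left h7 (by positivity)
    _ = (N : ℝ) / 192 * H2 ((K : ℝ) + 1) * Real.log ((K : ℝ) + 1) := by ring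
    _ ≤ _ := h8

end Pool.Agent.Q176.FA.W5
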