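import Pool.Agent.Q176.FA.W4
import Pool.Agent.Q120.FA.Stm5

set_option autoImplicit false

namespace Pool.Agent.Q176.FA.W9

open MeasureTheory Filter Topology Set
open Pool.Agent.Q120.FA

/-- Job FA-W9. -/
theorem t_W9 (w1 : J_W1) : J_W9 := by
  refine ⟨1 / 192, by norm_num, ?_⟩
  filter_upwards [eventually_ge_atTop 16] with N hN
  obtain ⟨K, hKd⟩ : ∃ K : ℕ, K = Nat.sqrt N / 2 := ⟨_, rfl⟩
  have hs : Nat.sqrt N * Nat.sqrt N ≤ N := Nat.sqrt_le N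
  have hs2 : 4 ≤ Nat.sqrt N := by
    rw [Nat.le_sqrt]
    omega
  have hK1 : 2 * K ≤ Nat.sqrt N := by omega
  have hKN : 2 * (K * (K + 1)) ≤ N := by
    have h2 : 2 ≤ K := by omega
    have : (2 * K) * (2 * K) ≤ N := le_trans (Nat.mul_le_mul hK1 hK1) hs
    nlinarith
  have hlow := Pool.Agent.Q176.FA.W5.lower w1 (by omega : 1 ≤ N) hKN
  have h1 : Real.sqrt N / 2 ≤ (K : ℝ) + 1 := by
    have h2 : Real.sqrt N ≤ (Nat.sqrt N : ℝ) + 1 := Real.sqrt_le_iff.2 ⟨by positivity, by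
      have h3 : N < (Nat.sqrt N + 1) * (Nat.sqrt N + 1) := Nat.lt_succ_sqrt N
      have h4 : (N : ℝ) ≤ ((Nat.sqrt N : ℝ) + 1) * ((Nat.sqrt N : ℝ) + 1) := by exact_mod_cast h3.le
      rw [pow_two]
      exact h4⟩
    have h3 : Nat.sqrt N ≤ 2 * K + 1 := by omega
    have h4 : (Nat.sqrt N : ℝ) ≤ 2 * K + 1 := by exact_mod_cast h3
    linarith
  have h2 : 1 ≤ Real.sqrt N / 2 := by
    have h3 : (2 : ℝ) ≤ Real.sqrt N := by
      apply Real.le_sqrt_of_sq_le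
      have : (16 : ℝ) ≤ N := by exact_mod_cast hN
      norm_num
      linarith
    linarith
  have h3 := Pool.Agent.Q176.FA.W4.H2_mono h2 h1
  have h4 := mul_le_mul_of_nonneg_left h3 (by positivity : (0 : ℝ) ≤ (N : ℝ) / 192)
  have e : 1 / 192 * ((N : ℝ) * H2 (Real.sqrt N / 2)) = (N : ℝ) / 192 * H2 (Real.sqrt N / 2) := by ring
  rw [e]
  exact h4.trans hlow

end Pool.Agent.Q176.FA.W9
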