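import Pool.Agent.Q176.FA.W5

set_option autoImplicit false

namespace Pool.Agent.Q176.FA.W4

open MeasureTheory Filter Topology Set
open Pool.Agent.Q120.FA
open Pool.Agent.Q176.FA.W5

/-- `μ(k)/k³` -/
noncomputable def mc (k : ℕ) : ℝ := ((ArithmeticFunction.moebius k : ℤ) : ℝ) / (k : ℝ) ^ 3

lemma abs_mu (k : ℕ) : |((ArithmeticFunction.moebius k : ℤ) : ℝ)| ≤ 1 := by
  exact_mod_cast ArithmeticFunction.abs_moebius_le_one (n := k)

lemma mc_summable : Summable mc := by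
  refine Summable.of_norm_bounded (g := fun k : ℕ => 1 / (k : ℝ) ^ 3)
    (Real.summable_one_div_nat_pow.2 (by norm_num)) ?_
  intro k
  unfold mc
  rw [norm_div, Real.norm_eq_abs, Real.norm_of_nonneg (by positivity : (0 : ℝ) ≤ (k : ℝ) ^ 3)]
  exact div_le_div_of_nonneg_right (abs_mu k) (by positivity)

lemma z3_mul : z3 * ∑' k, mc k = 1 := by
  have h := LSeries_one_mul_Lseries_moebius (s := 3) (by norm_num)
  have hc : ∀ n : ℕ, ((n : ℂ)) ^ (3 : ℂ) = ((n : ℂ)) ^ 3 := by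
    intro n
    rw [← Complex.cpow_natCast]
    norm_num
  have h1 : LSeries 1 3 = ((z3 : ℝ) : ℂ) := by
    unfold z3 LSeries
    rw [Complex.ofReal_tsum]
    refine tsum_congr ?_
    intro n
    rw [LSeries.term_def]
    by_cases hn : n = 0
    · rw [hn]
      norm_num
    · rw [if_neg hn, hc]
      simp
  have h2 : LSeries (fun n => ((ArithmeticFunction.moebius n : ℤ) : ℂ)) 3 = ((∑' k, mc k : ℝ) : ℂ) := by
    unfold mc LSeries
    rw [Complex.ofReal_tsum]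
    refine tsum_congr ?_
    intro n
    rw [LSeries.term_def]
    by_cases hn : n = 0
    · rw [hn]
      norm_num
    · rw [if_neg hn, hc]
      push_cast
      rfl
  have h3 : ((z3 : ℝ) : ℂ) * ((∑' k, mc k : ℝ) : ℂ) = 1 := by
    rw [← h1, ← h2]
    exact h
  exact_mod_cast h3

lemma z3_pos : 0 < z3 := by
  have h0 : 0 ≤ z3 := tsum_nonneg fun n => by positivity
  rcases h0.lt_or_eq with h | h
  · exact h
  · exfalso
    have := z3_mul
    rw [← h, zero_mul] at this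
    exact zero_ne_one this

lemma mc_hasSum : HasSum mc (1 / z3) := by
  have h := mc_summable.hasSum
  have e : ∑' k, mc k = 1 / z3 := by
    rw [eq_div_iff z3_pos.ne', mul_comm]
    exact z3_mul
  rwa [e] at h

/-- the lower bound for the mean value of `j2` -/
noncomputable def mm (K : ℕ) : ℝ := (∑ k ∈ Finset.Icc 1 K, mc k) - 1 / K

lemma mm_tendsto : Tendsto mm atTop (𝓝 (1 / z3)) := by
  have h1 := mc_hasSum.tendsto_sum_nat
  have h2 := h1.comp (tendsto_add_atTop_nat 1)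
  have h3 : Tendsto (fun K : ℕ => 1 / (K : ℝ)) atTop (𝓝 0) := tendsto_one_div_atTop_nhds_zero_nat
  have h4 := h2.sub h3
  rw [sub_zero] at h4
  refine h4.congr ?_
  intro K
  show (∑ k ∈ Finset.range (K + 1), mc k) - 1 / (K : ℝ) = mm K
  unfold mm
  congr 1
  rw [Finset.range_eq_Ico, Finset.sum_eq_sum_Ico_succ_bot (by omega)]
  have e : mc 0 = 0 := by
    unfold mc
    norm_num
  rw [e, zero_add]
  have e2 : Finset.Ico (0 + 1) (K + 1) = Finset.Icc 1 K := by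
    ext k
    rw [Finset.mem_Ico, Finset.mem_Icc]
    omega
  rw [e2]

lemma j2_le (e : ℕ) : j2 e ≤ 2 := by
  classical
  by_cases he : e = 0
  · rw [he]
    unfold j2
    norm_num
  unfold j2
  have h1 : (1 : ℕ) ∈ e.divisors := by
    rw [Nat.mem_divisors]
    exact ⟨one_dvd _, he⟩
  rw [← Finset.add_sum_erase _ _ h1]
  have h2 : ∀ k ∈ e.divisors.erase 1, ((ArithmeticFunction.moebius k : ℤ) : ℝ) / (k : ℝ) ^ 2 ≤ 1 / (k : ℝ) ^ 2 := by
    intro k _
    exact div_le_div_of_nonneg_right (abs_le.1 (abs_mu k)).2 (sq_nonneg _)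
  have h5 := Finset.sum_le_sum h2
  have h6 : ∑ k ∈ e.divisors.erase 1, 1 / (k : ℝ) ^ 2 ≤ 1 := by
    by_cases he2 : 2 ≤ e
    · have h7 : ∑ k ∈ e.divisors.erase 1, 1 / (k : ℝ) ^ 2 ≤ ∑ k ∈ Finset.Icc 2 e, 1 / (k : ℝ) ^ 2 := by
        refine Finset.sum_le_sum_of_subset_of_nonneg ?_ (fun k _ _ => by positivity)
        intro k hk
        rw [Finset.mem_erase, Nat.mem_divisors] at hk
        have h8 : 0 < k := Nat.pos_of_dvd_of_pos hk.2.1 (by omega)
        have h9 := Nat.le_of_dvd (by omega) hk.2.1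
        rw [Finset.mem_Icc]
        omega
      have h10 := sum_sq_le e he2
      have h11 : (0 : ℝ) ≤ 1 / (e : ℝ) := by positivity
      linarith
    · have h7 : e = 1 := by omega
      rw [h7]
      norm_num
  have h8 : ((ArithmeticFunction.moebius 1 : ℤ) : ℝ) / ((1 : ℕ) : ℝ) ^ 2 = 1 := by
    rw [ArithmeticFunction.moebius_apply_one]
    norm_num
  rw [h8]
  linarith

lemma j2_lower {K e : ℕ} (hK : 1 ≤ K) (he : 1 ≤ e) :
    (∑ k ∈ Finset.Icc 1 K, if k ∣ e then ((ArithmeticFunction.moebius k : ℤ) : ℝ) / (k : ℝ) ^ 2 else 0) - 1 / (K : ℝ) ≤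
      j2 e := by
  classical
  unfold j2
  rw [← Finset.sum_filter, ← Finset.sum_filter_add_sum_filter_not e.divisors (fun k => k ≤ K)]
  have h1 : e.divisors.filter (fun k => k ≤ K) = (Finset.Icc 1 K).filter (fun k => k ∣ e) := by
    ext k
    rw [Finset.mem_filter, Finset.mem_filter, Nat.mem_divisors, Finset.mem_Icc]
    constructor
    · rintro ⟨⟨h1, h2⟩, h3⟩
      exact ⟨⟨Nat.pos_of_dvd_of_pos h1 (by omega), h3⟩, h1⟩
    · rintro ⟨⟨_, h2⟩, h3⟩
      exact ⟨⟨h3, by omega⟩, h2⟩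
  rw [h1]
  have h2 : ∀ k ∈ e.divisors.filter (fun k => ¬ k ≤ K), -(1 / (k : ℝ) ^ 2) ≤
      ((ArithmeticFunction.moebius k : ℤ) : ℝ) / (k : ℝ) ^ 2 := by
    intro k _
    rw [← neg_div]
    exact div_le_div_of_nonneg_right (abs_le.1 (abs_mu k)).1 (sq_nonneg _)
  have h5 := Finset.sum_le_sum h2
  rw [Finset.sum_neg_distrib] at h5
  have h6 : ∑ k ∈ e.divisors.filter (fun k => ¬ k ≤ K), 1 / (k : ℝ) ^ 2 ≤ 1 / (K : ℝ) := by
    have h7 : ∑ k ∈ e.divisors.filter (fun k => ¬ k ≤ K), 1 / (k : ℝ) ^ 2 ≤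
        ∑ k ∈ Finset.Ioc K e, 1 / (k : ℝ) ^ 2 := by
      refine Finset.sum_le_sum_of_subset_of_nonneg ?_ (fun k _ _ => by positivity)
      intro k hk
      rw [Finset.mem_filter, Nat.mem_divisors] at hk
      have h9 := Nat.le_of_dvd (by omega) hk.1.1
      rw [Finset.mem_Ioc]
      omega
    refine h7.trans ?_
    by_cases hKe : K ≤ e
    · have h8 := sum_Ioc_inv_sq_le_sub (α := ℝ) (by omega : K ≠ 0) hKe
      have h9 : (0 : ℝ) ≤ (e : ℝ)⁻¹ := by positivity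
      have h10 : ∑ k ∈ Finset.Ioc K e, 1 / (k : ℝ) ^ 2 = ∑ k ∈ Finset.Ioc K e, ((k : ℝ) ^ 2)⁻¹ :=
        Finset.sum_congr rfl fun k _ => one_div _
      rw [h10, one_div]
      linarith
    · rw [Finset.Ioc_eq_empty (by omega), Finset.sum_empty]
      positivity
  linarith

lemma cnt {P k i : ℕ} (hk : 1 ≤ k) (hP : k ∣ P) :
    ((Finset.Ioc (i * P) ((i + 1) * P)).filter (fun e => k ∣ e)).card = P / k := by
  obtain ⟨Q, rfl⟩ := hP
  have h1 := Nat.Ioc_filter_dvd_card_eq_div (i * (k * Q)) k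
  have h2 := Nat.Ioc_filter_dvd_card_eq_div ((i + 1) * (k * Q)) k
  have e1 : i * (k * Q) / k = i * Q := by
    rw [show i * (k * Q) = k * (i * Q) by ring, Nat.mul_div_cancel_left _ (by omega)]
  have e2 : (i + 1) * (k * Q) / k = (i + 1) * Q := by
    rw [show (i + 1) * (k * Q) = k * ((i + 1) * Q) by ring, Nat.mul_div_cancel_left _ (by omega)]
  have e3 : k * Q / k = Q := Nat.mul_div_cancel_left _ (by omega)
  rw [e1] at h1
  rw [e2] at h2
  rw [e3]
  have hle : i * (k * Q) ≤ (i + 1) * (k * Q) := Nat.mul_le_mul_right _ (by omega)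
  have h3 : Finset.Ioc 0 ((i + 1) * (k * Q)) =
      Finset.Ioc 0 (i * (k * Q)) ∪ Finset.Ioc (i * (k * Q)) ((i + 1) * (k * Q)) :=
    (Finset.Ioc_union_Ioc_eq_Ioc (Nat.zero_le _) hle).symm
  rw [h3, Finset.filter_union, Finset.card_union_of_disjoint, h1] at h2
  · have : (i + 1) * Q = i * Q + Q := by ring
    omega
  · rw [Finset.disjoint_left]
    intro x hx hx2
    rw [Finset.mem_filter, Finset.mem_Ioc] at hx hx2
    omega

lemma block_lower {K P i : ℕ} (hK : 1 ≤ K) (hP : ∀ k, 1 ≤ k → k ≤ K → k ∣ P) :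
    (P : ℝ) * mm K ≤ ∑ e ∈ Finset.Ioc (i * P) ((i + 1) * P), j2 e := by
  have h1 : ∑ e ∈ Finset.Ioc (i * P) ((i + 1) * P),
      ((∑ k ∈ Finset.Icc 1 K, if k ∣ e then ((ArithmeticFunction.moebius k : ℤ) : ℝ) / (k : ℝ) ^ 2 else 0) - 1 / (K : ℝ)) ≤
      ∑ e ∈ Finset.Ioc (i * P) ((i + 1) * P), j2 e := by
    refine Finset.sum_le_sum ?_
    intro e he
    rw [Finset.mem_Ioc] at he
    exact j2_lower hK (lt_of_le_of_lt (Nat.zero_le _) he.1)
  refine le_trans (le_of_eq ?_) h1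
  rw [Finset.sum_sub_distrib, Finset.sum_comm, Finset.sum_const, Nat.card_Ioc]
  have h2 : (i + 1) * P - i * P = P := by
    rw [← Nat.sub_mul]
    simp
  rw [h2, nsmul_eq_mul]
  unfold mm
  rw [mul_sub, Finset.mul_sum]
  congr 1
  refine Finset.sum_congr rfl ?_
  intro k hk
  rw [Finset.mem_Icc] at hk
  rw [← Finset.sum_filter, Finset.sum_const, cnt hk.1 (hP k hk.1 hk.2), nsmul_eq_mul,
    Nat.cast_div (hP k hk.1 hk.2) (by exact_mod_cast (by omega : k ≠ 0))]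
  unfold mc
  have hk0 : (k : ℝ) ≠ 0 := by exact_mod_cast (by omega : k ≠ 0)
  field_simp

lemma block_upper {P i : ℕ} :
    ∑ e ∈ Finset.Ioc (i * P) ((i + 1) * P), j2 e ≤ 2 * P := by
  have h1 : ∑ e ∈ Finset.Ioc (i * P) ((i + 1) * P), j2 e ≤ ∑ _e ∈ Finset.Ioc (i * P) ((i + 1) * P), (2 : ℝ) :=
    Finset.sum_le_sum fun e _ => j2_le e
  rw [Finset.sum_const, Nat.card_Ioc] at h1
  have h2 : (i + 1) * P - i * P = P := by
    rw [← Nat.sub_mul]
    simp
  rw [h2, nsmul_eq_mul] at h1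
  linarith

end Pool.Agent.Q176.FA.W4
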